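import Mathlib
import Pool.Agent.FixChain.Stmts
import Pool.Agent.FixChain.Rep
import Pool.Agent.FixChain.Per
import Pool.Agent.FixChain.Chain
import Pool.Agent.FixChain.Cor
import Pool.Agent.FixChain.UAut

set_option autoImplicit false
set_option linter.style.haveILetI false

/-!
# Chains of fixed subgroups of automorphisms of right-angled Artin groups

Positive answer to Q1 of MP_c393fd_al, in a strong form: for every finite graph `Γ` there is a
number `B` such that every chain of subgroups of `A_Γ` of the form
`Fix(S) = {g | φ g = g for all φ ∈ S}`, `S` any set of automorphisms of `A_Γ` (twists allowed), has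
at most `B` members.

Outline of the proof (helper69, helper57, helper36).
* `Rep.lean`: a faithful representation of `A_Γ` by integral matrices congruent to `1` modulo `6`
  (quadratic ping-pong).
* `Per.lean`: the automorphisms acting trivially on `H^1(A_Γ; ℤ/2)` and on `H^1(A_Γ; ℤ/3)` form a
  subgroup `N` of finite index all of whose elements fix their periodic points.
* `Chain.lean`: the algebra `A` of functions on `Aut(A_Γ)` generated by the functions
  `φ ↦ ρ(φ(g))_{ij}` is a finitely generated reduced `ℚ`-algebra on which `Aut(A_Γ)` acts by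
  translations. For a subgroup `F`, let `r(F)` be the sum over the minimal primes `p` of `A` of the
  transcendence degree of the algebra generated by the entries `ρ(·(g))_{ij}`, `g ∈ F`, modulo `p`.
  If `F₂ ≤ F₁`, `r(F₂) = r(F₁)` and `ν ∈ N` fixes `F₂` pointwise, then the entries for `g ∈ F₁` are
  algebraic over `ν`-fixed elements modulo every minimal prime, hence have finite `ν`-orbits; so
  `ν` fixes `F₁` pointwise.
-/

namespace Pool.Agent.Results.MP_c393fd_al.FixedChains

open Pool.Agent.FixChain

/-- Right-angled Artin groups on finitely many vertices are finitely generated. -/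
theorem raag_fg (V : Type) [Finite V] (Γ : SimpleGraph V) : Group.FG (RAAG Γ) := by
  have h : Subgroup.closure (Set.range (gen Γ)) = ⊤ := PresentedGroup.closure_range_of _
  refine ⟨⟨(Set.finite_range (gen Γ)).toFinset, ?_⟩⟩
  rw [Set.Finite.coe_toFinset]
  exact h

/-- The chain condition for fixed subgroups of arbitrary sets of automorphisms of a right-angled
Artin group. -/
theorem raag_bddS (V : Type) [Finite V] (Γ : SimpleGraph V) : BddS (RAAG Γ) := by
  haveI := raag_fg V Γ
  obtain ⟨ι, h1, h2, ρ, hρ, hρ'⟩ := Rep_proof V Γ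
  exact ChainS (RAAG Γ) ι ρ hρ (PerB.Per_proof (RAAG Γ) ι ρ hρ hρ')

/-- Q1 literally: every chain of fixed subgroups of untwisted automorphisms is finite. -/
theorem q1 (V : Type) [Finite V] (Γ : SimpleGraph V) (𝒞 : Set (Subgroup (RAAG Γ)))
    (h𝒞 : 𝒞 ⊆ {H | ∃ φ ∈ UAut Γ, H = Fix φ}) (hc : IsChain (· ≤ ·) 𝒞) : 𝒞.Finite := by
  apply (raag_bddS V Γ).finite_of_isChain _ hc
  intro H hH
  obtain ⟨φ, _, hφ⟩ := h𝒞 hH
  exact ⟨{φ}, by rw [hφ, FixS_singleton]⟩

/-- **Main theorem.** Let `Γ` be a finite simplicial graph and `A_Γ` its right-angled Artin group.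
There is a number `B` such that every chain (for inclusion) of subgroups of `A_Γ` of the form
`Fix(S) = {g | φ g = g for all φ ∈ S}`, `S` a set of automorphisms of `A_Γ`, is finite with at
most `B` members.

In particular (`S = {φ}`) this holds for the chains of fixed subgroups of automorphisms, twists
allowed, and so for those of untwisted automorphisms: Q1 has a positive answer (see `q1`). -/
theorem result (V : Type) [Finite V] (Γ : SimpleGraph V) :
    ∃ B : ℕ, ∀ 𝒞 : Set (Subgroup (RAAG Γ)),
      (∀ H ∈ 𝒞, ∃ S : Set (MulAut (RAAG Γ)), ∀ g : RAAG Γ, g ∈ H ↔ ∀ φ ∈ S, φ g = g) →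
        IsChain (· ≤ ·) 𝒞 → 𝒞.Finite ∧ 𝒞.ncard ≤ B := by
  obtain ⟨B, hB⟩ := raag_bddS V Γ
  refine ⟨B, fun 𝒞 h𝒞 hc => hB 𝒞 ?_ hc⟩
  intro H hH
  obtain ⟨S, hS⟩ := h𝒞 H hH
  exact ⟨S, by ext g; rw [hS, mem_FixS]⟩

end Pool.Agent.Results.MP_c393fd_al.FixedChains
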